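import Mathlib
import Pool.Agent.Helper113.Gorin.Schottky

set_option autoImplicit false

/-!
Analytic part for MP_8269f7_co, Q2: the recursion `h_{n+1} = 1 + u (h_n ^ (-m) - 1)`, `h_0 = 1 - u`,
must have zeros in every disc of radius larger than `1 / m`.
-/

open Metric Set Filter Topology Complex

namespace Pool.Agent.Q127.CR

theorem schottky (M : ℝ) : ∃ C : ℝ, ∀ (f : ℂ → ℂ) (c : ℂ) (r : ℝ), 0 < r →
    DifferentiableOn ℂ f (ball c r) → (∀ z ∈ ball c r, f z ≠ 0 ∧ f z ≠ 1) → ‖f c‖ ≤ M →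
    ∀ z ∈ ball c (r / 2), ‖f z‖ ≤ C := by
  refine ⟨Real.exp (Real.pi * Real.exp (Real.pi * ((2 * M + 1) + 386))) + 1, ?_⟩
  intro f c r hr hf h01 hM z hz
  have hmaps : ∀ x ∈ ball (0:ℂ) 1, c + r * x ∈ ball c r := by
    intro x hx
    rw [mem_ball_zero_iff] at hx
    rw [mem_ball, dist_eq_norm]
    have : c + r * x - c = r * x := by ring
    rw [this, norm_mul, Complex.norm_real, Real.norm_eq_abs, abs_of_pos hr]
    nlinarith
  have hh : DifferentiableOn ℂ (fun x => 2 * f (c + r * x) - 1) (ball 0 1) := by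
    have h1 : DifferentiableOn ℂ (fun x : ℂ => c + r * x) (ball 0 1) := by fun_prop
    exact ((hf.comp h1 hmaps).const_mul 2).sub_const 1
  have hx : (z - c) / r ∈ ball (0:ℂ) (1/2) := by
    rw [mem_ball_zero_iff, norm_div, Complex.norm_real, Real.norm_eq_abs, abs_of_pos hr]
    rw [mem_ball, dist_eq_norm] at hz
    rw [div_lt_iff₀ hr]; linarith
  have h2 := H113G.schottky_all _ (2 * M + 1) hh
    (fun x hx h => (h01 _ (hmaps x hx)).2 (by linear_combination h / 2))
    (fun x hx h => (h01 _ (hmaps x hx)).1 (by linear_combination h / 2))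
    (by
      have : ‖(2:ℂ) * f (c + r * 0) - 1‖ ≤ ‖(2:ℂ) * f (c + r * 0)‖ + ‖(1:ℂ)‖ := norm_sub_le _ _
      have h3 : ‖(2:ℂ) * f (c + r * 0)‖ = 2 * ‖f c‖ := by simp
      rw [h3, norm_one] at this
      show ‖(2:ℂ) * f (c + r * 0) - 1‖ ≤ _
      linarith) _ hx
  have e : c + r * ((z - c) / r) = z := by
    have : (r:ℂ) ≠ 0 := by exact_mod_cast hr.ne'
    field_simp
    ring
  simp only [e] at h2
  have h4 : ‖2 * f z‖ ≤ ‖2 * f z - 1‖ + ‖(1:ℂ)‖ := by
    simpa using norm_add_le (2 * f z - 1) (1:ℂ)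
  have h5 : ‖2 * f z‖ = 2 * ‖f z‖ := by simp
  rw [h5, norm_one] at h4
  have := norm_nonneg (f z)
  linarith

/-- `h_0 = 1 - u`, `h_{n+1} = 1 + u (h_n ^ (-m) - 1)` -/
noncomputable def h (m : ℕ) : ℕ → ℂ → ℂ
  | 0 => fun u => 1 - u
  | n + 1 => fun u => 1 + u * ((h m n u)⁻¹ ^ m - 1)

/-- the quotient `(h_n - 1) / u ^ (n + 1)` -/
noncomputable def g (m : ℕ) : ℕ → ℂ → ℂ
  | 0 => fun _ => -1
  | n + 1 => fun u => - g m n u * ∑ j ∈ Finset.range m, (h m n u)⁻¹ ^ (j + 1)

variable {m : ℕ} {ρ : ℝ}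

theorem h_zero_right (n : ℕ) : h m n 0 = 1 := by
  cases n with
  | zero => simp [h]
  | succ n => simp [h]

theorem g_zero_right (n : ℕ) : g m n 0 = - (-(m : ℂ)) ^ n := by
  induction n with
  | zero => simp [g]
  | succ n ih =>
    simp only [g, h_zero_right, ih]
    simp only [inv_one, one_pow, Finset.sum_const, Finset.card_range, nsmul_eq_mul, mul_one, pow_succ]
    ring

theorem h_eq (hne : ∀ n, ∀ u : ℂ, ‖u‖ < ρ → h m n u ≠ 0) (n : ℕ) (u : ℂ) (hu : ‖u‖ < ρ) :
    h m n u = 1 + u ^ (n + 1) * g m n u := by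
  induction n with
  | zero => simp [h, g]; ring
  | succ n ih =>
    have h0 := hne n u hu
    set x := (h m n u)⁻¹ with hx
    have hx1 : x - 1 = - (u ^ (n + 1) * g m n u) * x := by
      rw [hx]
      rw [ih] at h0 ⊢
      field_simp
      ring
    have hgeom : (∑ j ∈ Finset.range m, x ^ j) * (x - 1) = x ^ m - 1 := geom_sum_mul x m
    have hs : ∑ j ∈ Finset.range m, x ^ (j + 1) = x * ∑ j ∈ Finset.range m, x ^ j := by
      rw [Finset.mul_sum]
      exact Finset.sum_congr rfl fun j _ => by ring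
    show 1 + u * ((h m n u)⁻¹ ^ m - 1) = 1 + u ^ (n + 1 + 1) *
      (- g m n u * ∑ j ∈ Finset.range m, (h m n u)⁻¹ ^ (j + 1))
    rw [← hx, ← hgeom, hs, hx1]
    ring

theorem h_diff (hne : ∀ n, ∀ u : ℂ, ‖u‖ < ρ → h m n u ≠ 0) (n : ℕ) :
    DifferentiableOn ℂ (h m n) (ball 0 ρ) := by
  induction n with
  | zero => exact (differentiable_id.const_sub 1).differentiableOn
  | succ n ih =>
    have h1 : DifferentiableOn ℂ (fun u => (h m n u)⁻¹) (ball 0 ρ) :=
      ih.inv fun u hu => hne n u (by simpa using hu)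
    exact (differentiableOn_id.mul ((h1.pow m).sub_const 1)).const_add 1

theorem g_diff (hne : ∀ n, ∀ u : ℂ, ‖u‖ < ρ → h m n u ≠ 0) (n : ℕ) :
    DifferentiableOn ℂ (g m n) (ball 0 ρ) := by
  induction n with
  | zero => exact (differentiable_const _).differentiableOn
  | succ n ih =>
    have h1 : DifferentiableOn ℂ (fun u => (h m n u)⁻¹) (ball 0 ρ) :=
      (h_diff hne n).inv fun u hu => hne n u (by simpa using hu)
    refine ih.neg.mul ?_
    have : (fun u => ∑ j ∈ Finset.range m, (h m n u)⁻¹ ^ (j + 1)) =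
        ∑ j ∈ Finset.range m, fun u => (h m n u)⁻¹ ^ (j + 1) := by
      ext u; simp
    rw [this]
    exact DifferentiableOn.sum fun j _ => h1.pow (j + 1)

theorem h_real {U : ℝ} (hU0 : 0 < U) (hU1 : U < 1) (n : ℕ) :
    ∃ x : ℝ, 1 - U ≤ x ∧ h m n (U : ℂ) = x := by
  induction n with
  | zero => exact ⟨1 - U, le_rfl, by simp [h]⟩
  | succ n ih =>
    obtain ⟨x, hx, hxe⟩ := ih
    refine ⟨1 + U * (x⁻¹ ^ m - 1), ?_, ?_⟩
    · have : 0 ≤ x⁻¹ ^ m := pow_nonneg (inv_nonneg.2 (by linarith)) m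
      nlinarith
    · simp only [h, hxe]
      push_cast
      ring

/-- bound on an arc of the circle of radius `U` -/
theorem arc_bound (hne : ∀ n, ∀ u : ℂ, ‖u‖ < ρ → h m n u ≠ 0) {U r : ℝ} (hU0 : 0 < U)
    (hU1 : U < 1) (hr : 0 < r) (hrU : r < U) (hρ : U + r ≤ ρ) (hρ1 : U + r ≤ 1) (j : ℕ) :
    ∃ C : ℝ, ∀ n : ℕ, ∀ θ : ℝ, 0 ≤ θ → θ ≤ j * (r / (4 * U)) →
      ‖(h m n (U * exp (θ * I)))⁻¹ ^ m‖ ≤ C := by
  induction j with
  | zero =>
    refine ⟨((1 - U)⁻¹) ^ m, fun n θ h0 h1 => ?_⟩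
    have hθ : θ = 0 := by
      have : ((0 : ℕ) : ℝ) * (r / (4 * U)) = 0 := by simp
      linarith
    subst hθ
    obtain ⟨x, hx, hxe⟩ := h_real (m := m) hU0 hU1 n
    have : (U : ℂ) * exp (((0 : ℝ) : ℂ) * I) = U := by simp
    rw [this, hxe, norm_pow, norm_inv, Complex.norm_real, Real.norm_eq_abs,
      abs_of_pos (by linarith : 0 < x)]
    exact pow_le_pow_left₀ (inv_nonneg.2 (by linarith)) (inv_anti₀ (by linarith) hx) m
  | succ j ih =>
    obtain ⟨C, hC⟩ := ih
    obtain ⟨C', hC'⟩ := schottky (U * C / (1 - U))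
    refine ⟨max C (C' * (1 + U) / U), fun n θ h0 h1 => ?_⟩
    by_cases hθ : θ ≤ j * (r / (4 * U))
    · exact (hC n θ h0 hθ).trans (le_max_left _ _)
    push Not at hθ
    refine le_trans ?_ (le_max_right _ _)
    set θ' : ℝ := j * (r / (4 * U)) with hθ'
    have hη : 0 < r / (4 * U) := by positivity
    have hθ'0 : 0 ≤ θ' := by positivity
    have hd : θ - θ' ≤ r / (4 * U) := by
      have : ((j + 1 : ℕ) : ℝ) * (r / (4 * U)) = θ' + r / (4 * U) := by
        rw [hθ']; push_cast; ring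
      linarith
    set c : ℂ := U * exp (θ' * I) with hc
    set z : ℂ := U * exp (θ * I) with hz
    have hcn : ‖c‖ = U := by
      rw [hc, norm_mul, norm_exp_ofReal_mul_I, mul_one, Complex.norm_real, Real.norm_eq_abs,
        abs_of_pos hU0]
    have hzn : ‖z‖ = U := by
      rw [hz, norm_mul, norm_exp_ofReal_mul_I, mul_one, Complex.norm_real, Real.norm_eq_abs,
        abs_of_pos hU0]
    have hzc : z ∈ ball c (r / 2) := by
      rw [mem_ball, dist_eq_norm]
      have e1 : z - c = U * (exp (θ' * I) * (exp ((θ - θ' : ℝ) * I) - 1)) := by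
        rw [hz, hc, mul_sub, ← Complex.exp_add]
        have : (θ' : ℂ) * I + ((θ - θ' : ℝ) : ℂ) * I = θ * I := by push_cast; ring
        rw [this]; ring
      rw [e1, norm_mul, norm_mul, norm_exp_ofReal_mul_I, one_mul, Complex.norm_real,
        Real.norm_eq_abs, abs_of_pos hU0]
      have e2 : ‖exp ((θ - θ' : ℝ) * I) - 1‖ ≤ |θ - θ'| := by
        have := Real.norm_exp_I_mul_ofReal_sub_one_le (x := θ - θ')
        rw [mul_comm] at this
        simpa using this
      rw [abs_of_pos (by linarith : 0 < θ - θ')] at e2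
      calc U * ‖exp ((θ - θ' : ℝ) * I) - 1‖ ≤ U * (r / (4 * U)) := by
            exact mul_le_mul_of_nonneg_left (e2.trans hd) hU0.le
        _ = r / 4 := by field_simp
        _ < r / 2 := by linarith
    have hball : ∀ w ∈ ball c r, ‖w‖ < ρ ∧ ‖w‖ < 1 ∧ w ≠ 0 := by
      intro w hw
      rw [mem_ball, dist_eq_norm] at hw
      have h1 : ‖w‖ < U + r := by
        have : ‖w‖ ≤ ‖w - c‖ + ‖c‖ := by simpa using norm_add_le (w - c) c
        linarith
      refine ⟨by linarith, by linarith, ?_⟩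
      rintro rfl
      rw [zero_sub, norm_neg, hcn] at hw
      linarith
    have hdiff : DifferentiableOn ℂ (fun w => w * (h m n w)⁻¹ ^ m / (w - 1)) (ball c r) := by
      have h1 : DifferentiableOn ℂ (fun u => (h m n u)⁻¹) (ball c r) :=
        ((h_diff hne n).mono (fun w hw => by simpa using (hball w hw).1)).inv
          fun u hu => hne n u (hball u hu).1
      refine (differentiableOn_id.mul (h1.pow m)).div (differentiableOn_id.sub_const 1) ?_
      intro w hw h
      have h2 := (hball w hw).2.1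
      have : w = 1 := by simpa [sub_eq_zero] using h
      rw [this, norm_one] at h2
      exact lt_irrefl _ h2
    have hw1 : ∀ w ∈ ball c r, w - 1 ≠ 0 := by
      intro w hw h
      have h2 := (hball w hw).2.1
      have : w = 1 := by simpa [sub_eq_zero] using h
      rw [this, norm_one] at h2
      exact lt_irrefl _ h2
    have hom : ∀ w ∈ ball c r, w * (h m n w)⁻¹ ^ m / (w - 1) ≠ 0 ∧
        w * (h m n w)⁻¹ ^ m / (w - 1) ≠ 1 := by
      intro w hw
      refine ⟨div_ne_zero (mul_ne_zero (hball w hw).2.2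
        (pow_ne_zero m (inv_ne_zero (hne n w (hball w hw).1)))) (hw1 w hw), ?_⟩
      intro h1
      rw [div_eq_one_iff_eq (hw1 w hw)] at h1
      apply hne (n + 1) w (hball w hw).1
      show 1 + w * ((h m n w)⁻¹ ^ m - 1) = 0
      linear_combination h1
    have hcb : ‖c * (h m n c)⁻¹ ^ m / (c - 1)‖ ≤ U * C / (1 - U) := by
      have h1 := hC n θ' hθ'0 le_rfl
      rw [← hc] at h1
      rw [norm_div, norm_mul, hcn]
      have h2 : 1 - U ≤ ‖c - 1‖ := by
        have : ‖(1 : ℂ)‖ - ‖c‖ ≤ ‖1 - c‖ := norm_sub_norm_le _ _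
        rw [norm_one, hcn, norm_sub_rev] at this
        exact this
      have h3 : 0 ≤ ‖(h m n c)⁻¹ ^ m‖ := norm_nonneg _
      exact div_le_div₀ (mul_nonneg hU0.le (h3.trans h1)) (mul_le_mul_of_nonneg_left h1 hU0.le)
        (by linarith) h2
    have hfin := hC' _ c r hr hdiff hom hcb z hzc
    have hz0 : z ≠ 0 := by
      intro h; rw [h, norm_zero] at hzn; linarith
    have hzb : z ∈ ball c r := ball_subset_ball (by linarith) hzc
    have e3 : (h m n z)⁻¹ ^ m = (z * (h m n z)⁻¹ ^ m / (z - 1)) * ((z - 1) / z) := by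
      have := hw1 z hzb
      field_simp
    have e4 : C' * (1 + U) / U = C' * ((1 + U) / U) := by ring
    rw [e3, norm_mul, norm_div (z - 1) z, hzn, e4]
    refine mul_le_mul hfin ?_ (by positivity) ((norm_nonneg _).trans hfin)
    refine div_le_div_of_nonneg_right ?_ hU0.le
    have : ‖z - 1‖ ≤ ‖z‖ + ‖(1 : ℂ)‖ := norm_sub_le _ _
    rw [norm_one, hzn] at this
    linarith

theorem exists_zero (hm : 2 ≤ m) (hρ : 1 / (m : ℝ) < ρ) :
    ∃ n : ℕ, ∃ u : ℂ, ‖u‖ < ρ ∧ h m n u = 0 := by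
  by_contra hcon
  push Not at hcon
  have hm0 : (0 : ℝ) < m := by
    have : 0 < m := by omega
    exact_mod_cast this
  have hm2 : (2 : ℝ) ≤ m := by exact_mod_cast hm
  -- shrink the radius
  set ρ' : ℝ := min ρ 1 with hρ'
  have hinv : 1 / (m : ℝ) < 1 := by
    rw [div_lt_one hm0]; linarith
  have h1 : 1 / (m : ℝ) < ρ' := lt_min hρ hinv
  have hne : ∀ n, ∀ u : ℂ, ‖u‖ < ρ' → h m n u ≠ 0 :=
    fun n u hu => hcon n u (hu.trans_le (min_le_left _ _))
  set U : ℝ := (1 / m + ρ') / 2 with hU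
  have hinv0 : 0 < 1 / (m : ℝ) := by positivity
  have hU0 : 0 < U := by rw [hU]; linarith
  have hUm : 1 / (m : ℝ) < U := by rw [hU]; linarith
  have hUρ : U < ρ' := by rw [hU]; linarith
  have hρ1 : ρ' ≤ 1 := min_le_right _ _
  have hU1 : U < 1 := by linarith
  set r : ℝ := min (ρ' - U) U / 2 with hr
  have hr0 : 0 < r := by
    rw [hr]; have : 0 < min (ρ' - U) U := lt_min (by linarith) hU0
    linarith
  have hrU : r < U := by
    have := min_le_right (ρ' - U) U
    rw [hr]; linarith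
  have hrρ : U + r ≤ ρ' := by
    have h2 := min_le_left (ρ' - U) U
    have h3 : 0 < ρ' - U := by linarith
    rw [hr]; linarith
  have hη : 0 < r / (4 * U) := by positivity
  obtain ⟨j, hj⟩ := exists_nat_ge (2 * Real.pi / (r / (4 * U)))
  have hj2 : 2 * Real.pi ≤ j * (r / (4 * U)) := by
    rwa [div_le_iff₀ hη] at hj
  obtain ⟨C, hC⟩ := arc_bound hne hU0 hU1 hr0 hrU hrρ (hrρ.trans hρ1) j
  have hcirc : ∀ n, ∀ u : ℂ, ‖u‖ = U → ‖(h m n u)⁻¹ ^ m‖ ≤ C := by
    intro n u hu
    have hpi := Real.pi_pos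
    rcases le_or_gt 0 u.arg with ha | ha
    · have := hC n u.arg ha ((arg_le_pi u).trans (by linarith))
      rwa [← hu, norm_mul_exp_arg_mul_I] at this
    · have h2 := hC n (u.arg + 2 * Real.pi) (by have := neg_pi_lt_arg u; linarith) (by linarith)
      have h3 : exp (((u.arg + 2 * Real.pi : ℝ) : ℂ) * I) = exp (u.arg * I) := by
        push_cast
        rw [add_mul, Complex.exp_add, exp_two_pi_mul_I, mul_one]
      rw [h3, ← hu, norm_mul_exp_arg_mul_I] at h2
      exact h2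
  have hgb : ∀ n : ℕ, (m * U) ^ (n + 1) ≤ C + 1 := by
    intro n
    have hb : ∀ z ∈ frontier (ball (0 : ℂ) U), ‖g m (n + 1) z‖ ≤ (C + 1) / U ^ (n + 1) := by
      intro z hz
      rw [frontier_ball (0 : ℂ) hU0.ne'] at hz
      have hzn : ‖z‖ = U := by simpa using hz
      have hz0 : z ≠ 0 := by intro h; rw [h, norm_zero] at hzn; linarith
      have e1 := h_eq hne (n + 1) z (by rw [hzn]; exact hUρ)
      have e2 : h m (n + 1) z = 1 + z * ((h m n z)⁻¹ ^ m - 1) := rfl
      have e3 : z ^ (n + 1) * g m (n + 1) z = (h m n z)⁻¹ ^ m - 1 := by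
        rw [e2] at e1
        have : z * ((h m n z)⁻¹ ^ m - 1) = z * (z ^ (n + 1) * g m (n + 1) z) := by
          linear_combination e1
        exact (mul_left_cancel₀ hz0 this).symm
      have e4 : ‖z ^ (n + 1) * g m (n + 1) z‖ ≤ C + 1 := by
        rw [e3]
        refine (norm_sub_le _ _).trans ?_
        rw [norm_one]
        linarith [hcirc n z hzn]
      rw [norm_mul, norm_pow, hzn] at e4
      rw [le_div_iff₀ (by positivity)]
      linarith
    have hdc : DiffContOnCl ℂ (g m (n + 1)) (ball 0 U) := by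
      apply DifferentiableOn.diffContOnCl
      rw [closure_ball (0 : ℂ) hU0.ne']
      exact (g_diff hne (n + 1)).mono (closedBall_subset_ball hUρ)
    have hfin := Complex.norm_le_of_forall_mem_frontier_norm_le isBounded_ball hdc hb
      (z := 0) (subset_closure (mem_ball_self hU0))
    rw [g_zero_right, norm_neg, norm_pow, norm_neg, Complex.norm_natCast,
      le_div_iff₀ (by positivity)] at hfin
    rwa [mul_pow]
  have hmU : 1 < m * U := by
    have := mul_lt_mul_of_pos_left hUm hm0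
    rwa [mul_one_div_cancel hm0.ne'] at this
  obtain ⟨n, hn⟩ := pow_unbounded_of_one_lt (C + 1) hmU
  have h5 := hgb n
  have h6 : (m * U) ^ n ≤ (m * U) ^ (n + 1) := pow_le_pow_right₀ hmU.le (Nat.le_succ n)
  linarith

end Pool.Agent.Q127.CR
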