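import Mathlib

set_option autoImplicit false

open SimpleGraph

namespace Pool.Agent.Q127.CR

/-- `G` has a `K₄` minor: there are four pairwise disjoint vertex sets, each inducing a connected
subgraph, any two of which are joined by an edge of `G`. -/
def HasK4Minor {V : Type} (G : SimpleGraph V) : Prop :=
  ∃ f : Fin 4 → Set V, (∀ i, (G.induce (f i)).Connected) ∧
    (∀ i j, i ≠ j → Disjoint (f i) (f j)) ∧
    (∀ i j, i ≠ j → ∃ a ∈ f i, ∃ b ∈ f j, G.Adj a b)

/-- `G` minus the vertex `x` is a rooted forest with parent function `par` and depth `d` -/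
structure Rooted {V : Type} (G : SimpleGraph V) (x : V) (par : V → Option V) (d : V → ℕ) : Prop where
  adj : ∀ a b, a ≠ x → b ≠ x → G.Adj a b → par a = some b ∨ par b = some a
  lt : ∀ a b, par a = some b → d b < d a

variable {V : Type} {G : SimpleGraph V} {x : V} {par : V → Option V} {d : V → ℕ}

theorem Rooted.desc (hR : Rooted G x par d) {a b : V}
    (h : Relation.ReflTransGen (fun a b => par a = some b) a b) : a = b ∨ d b < d a := by
  induction h with
  | refl => exact Or.inl rfl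
  | tail _ hbc ih =>
    have := hR.lt _ _ hbc
    rcases ih with rfl | ih
    · exact Or.inr this
    · exact Or.inr (this.trans ih)

/-- a connected set avoiding `x` has a top vertex -/
theorem Rooted.exists_top (hR : Rooted G x par d) {X : Set V} (hx : x ∉ X)
    (hX : (G.induce X).Connected) :
    ∃ t ∈ X, (∀ v ∈ X, d t ≤ d v) ∧ ∀ v ∈ X, v = t ∨ ∃ w ∈ X, par v = some w := by
  classical
  obtain ⟨⟨v0, hv0⟩⟩ := hX.nonempty
  have hex : ∃ n, ∃ t ∈ X, d t = n := ⟨_, v0, hv0, rfl⟩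
  obtain ⟨t, ht, htn⟩ := Nat.find_spec hex
  have hmin : ∀ v ∈ X, d t ≤ d v := by
    intro v hv
    rw [htn]
    exact Nat.find_min' hex ⟨v, hv, rfl⟩
  refine ⟨t, ht, hmin, fun v hv => ?_⟩
  by_contra hcon
  push Not at hcon
  obtain ⟨hvt, hpar⟩ := hcon
  have hreach : ∀ w : X, Relation.ReflTransGen (G.induce X).Adj ⟨v, hv⟩ w →
      Relation.ReflTransGen (fun a b => par a = some b) w.1 v := by
    intro w hw
    induction hw with
    | refl => exact Relation.ReflTransGen.refl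
    | tail _ hbc ih =>
      rename_i b c _
      have hadj : G.Adj b.1 c.1 := hbc
      rcases hR.adj b.1 c.1 (fun h => hx (h ▸ b.2)) (fun h => hx (h ▸ c.2)) hadj with h | h
      · rcases Relation.ReflTransGen.cases_head ih with h1 | ⟨e, h1, h2⟩
        · exact absurd (h1 ▸ h) (hpar c.1 c.2)
        · rw [h] at h1
          rw [Option.some_inj.1 h1]
          exact h2
      · exact Relation.ReflTransGen.head h ih
  have h1 := hX.preconnected ⟨v, hv⟩ ⟨t, ht⟩
  rw [reachable_iff_reflTransGen] at h1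
  rcases hR.desc (hreach _ h1) with h2 | h2
  · exact hvt h2.symm
  · exact absurd (hmin v hv) (by simpa using h2)

theorem Rooted.no_triangle (hR : Rooted G x par d) {X Y Z : Set V} (hx : x ∉ X) (hy : x ∉ Y)
    (hz : x ∉ Z) (hX : (G.induce X).Connected) (hY : (G.induce Y).Connected)
    (hZ : (G.induce Z).Connected) (hXY : Disjoint X Y) (hXZ : Disjoint X Z) (hYZ : Disjoint Y Z)
    (aXY : ∃ a ∈ X, ∃ b ∈ Y, G.Adj a b) (aXZ : ∃ a ∈ X, ∃ b ∈ Z, G.Adj a b)
    (aYZ : ∃ a ∈ Y, ∃ b ∈ Z, G.Adj a b) : False := by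
  obtain ⟨tX, hX1, hX2, hX3⟩ := hR.exists_top hx hX
  obtain ⟨tY, hY1, hY2, hY3⟩ := hR.exists_top hy hY
  obtain ⟨tZ, hZ1, hZ2, hZ3⟩ := hR.exists_top hz hZ
  have key : ∀ (P Q : Set V) (tP tQ : V), x ∉ P → x ∉ Q → Disjoint P Q →
      (∀ v ∈ P, v = tP ∨ ∃ w ∈ P, par v = some w) → (∀ v ∈ Q, v = tQ ∨ ∃ w ∈ Q, par v = some w) →
      (∃ a ∈ P, ∃ b ∈ Q, G.Adj a b) →
      (∃ b ∈ Q, par tP = some b) ∨ (∃ b ∈ P, par tQ = some b) := by
    rintro P Q tP tQ hp hq hPQ h1 h2 ⟨a, ha, b, hb, hab⟩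
    rcases hR.adj a b (fun h => hp (h ▸ ha)) (fun h => hq (h ▸ hb)) hab with h | h
    · rcases h1 a ha with rfl | ⟨w, hw, hw2⟩
      · exact Or.inl ⟨b, hb, h⟩
      · rw [h] at hw2
        exact absurd (Option.some_inj.1 hw2 ▸ hb) (Set.disjoint_left.1 hPQ hw)
    · rcases h2 b hb with rfl | ⟨w, hw, hw2⟩
      · exact Or.inr ⟨a, ha, h⟩
      · rw [h] at hw2
        exact absurd hw (Set.disjoint_left.1 hPQ (Option.some_inj.1 hw2 ▸ ha))
  have uniq : ∀ (P Q : Set V) (t : V), Disjoint P Q → (∃ b ∈ P, par t = some b) →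
      (∃ b ∈ Q, par t = some b) → False := by
    rintro P Q t hPQ ⟨b, hb, h1⟩ ⟨c, hc, h2⟩
    rw [h1] at h2
    exact Set.disjoint_left.1 hPQ hb (Option.some_inj.1 h2 ▸ hc)
  have down : ∀ (Q : Set V) (t tQ : V), (∀ v ∈ Q, d tQ ≤ d v) → (∃ b ∈ Q, par t = some b) →
      d tQ < d t := by
    rintro Q t tQ h ⟨b, hb, h1⟩
    exact (h b hb).trans_lt (hR.lt _ _ h1)
  rcases key X Y tX tY hx hy hXY hX3 hY3 aXY with h1 | h1
  · rcases key X Z tX tZ hx hz hXZ hX3 hZ3 aXZ with h2 | h2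
    · exact uniq Y Z tX hYZ h1 h2
    · rcases key Y Z tY tZ hy hz hYZ hY3 hZ3 aYZ with h3 | h3
      · have e1 := down Y tX tY hY2 h1
        have e2 := down Z tY tZ hZ2 h3
        have e3 := down X tZ tX hX2 h2
        omega
      · exact uniq X Y tZ hXY h2 h3
  · rcases key Y Z tY tZ hy hz hYZ hY3 hZ3 aYZ with h3 | h3
    · exact uniq X Z tY hXZ h1 h3
    · rcases key X Z tX tZ hx hz hXZ hX3 hZ3 aXZ with h2 | h2
      · have e1 := down X tY tX hX2 h1
        have e2 := down Y tZ tY hY2 h3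
        have e3 := down Z tX tZ hZ2 h2
        omega
      · exact uniq X Y tZ hXY h2 h3

theorem Rooted.no_K4 (hR : Rooted G x par d) : ¬ HasK4Minor G := by
  rintro ⟨f, hc, hd, ha⟩
  have key : ∀ i j k : Fin 4, i ≠ j → i ≠ k → j ≠ k → x ∉ f i → x ∉ f j → x ∉ f k → False := by
    intro i j k hij hik hjk hi hj hk
    exact hR.no_triangle hi hj hk (hc i) (hc j) (hc k) (hd i j hij) (hd i k hik) (hd j k hjk)
      (ha i j hij) (ha i k hik) (ha j k hjk)
  by_cases h0 : x ∈ f 0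
  · exact key 1 2 3 (by decide) (by decide) (by decide)
      (Set.disjoint_left.1 (hd 0 1 (by decide)) h0) (Set.disjoint_left.1 (hd 0 2 (by decide)) h0)
      (Set.disjoint_left.1 (hd 0 3 (by decide)) h0)
  by_cases h1 : x ∈ f 1
  · exact key 0 2 3 (by decide) (by decide) (by decide) h0
      (Set.disjoint_left.1 (hd 1 2 (by decide)) h1) (Set.disjoint_left.1 (hd 1 3 (by decide)) h1)
  by_cases h2 : x ∈ f 2
  · exact key 0 1 3 (by decide) (by decide) (by decide) h0 h1
      (Set.disjoint_left.1 (hd 2 3 (by decide)) h2)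
  · exact key 0 1 2 (by decide) (by decide) (by decide) h0 h1 h2

end Pool.Agent.Q127.CR
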