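import Mathlib
import Pool.Agent.Q127.CR.Ana

set_option autoImplicit false

open Polynomial

namespace Pool.Agent.Q127.CR

/-- `(α n, β n)`: numbers of colourings of the tree when the colour of the vertex above the root is
equal to (`α`), different from (`β`) the colour of the apex -/
noncomputable def ab (m : ℕ) : ℕ → ℂ[X] × ℂ[X]
  | 0 => (X - 1, X - 2)
  | n + 1 => ((X - 1) * (ab m n).2 ^ m, (ab m n).1 ^ m + (X - 2) * (ab m n).2 ^ m)

theorem ab_h {m : ℕ} {u : ℂ} (hu : u ≠ 0) (n : ℕ) (hn : ∀ k < n, h m k u ≠ 0) :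
    (ab m n).1.eval (1 + u⁻¹) ≠ 0 ∧
      (ab m n).2.eval (1 + u⁻¹) = h m n u * (ab m n).1.eval (1 + u⁻¹) := by
  induction n with
  | zero =>
    refine ⟨by simpa [ab] using hu, ?_⟩
    simp only [ab, h, eval_sub, eval_X, eval_one, eval_ofNat]
    field_simp
    ring
  | succ n ih =>
    obtain ⟨h1, h2⟩ := ih fun k hk => hn k (by omega)
    have h3 := hn n (Nat.lt_succ_self n)
    have hb : (ab m n).2.eval (1 + u⁻¹) ≠ 0 := by rw [h2]; exact mul_ne_zero h3 h1
    constructor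
    · simp only [ab, eval_mul, eval_sub, eval_X, eval_one, eval_pow]
      refine mul_ne_zero ?_ (pow_ne_zero m hb)
      simpa using hu
    · simp only [ab, eval_mul, eval_sub, eval_X, eval_one, eval_pow, eval_add, eval_ofNat, h]
      have e : (ab m n).1.eval (1 + u⁻¹) = (h m n u)⁻¹ * (ab m n).2.eval (1 + u⁻¹) := by
        rw [h2]; field_simp
      rw [e, mul_pow]
      have e2 : u * u⁻¹ = 1 := mul_inv_cancel₀ hu
      linear_combination (-(((h m n u)⁻¹ ^ m - 1) * (ab m n).2.eval (1 + u⁻¹) ^ m)) * e2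

/-- There are zeros of `β` outside every disc around `1` of radius less than `m`. -/
theorem exists_root {m : ℕ} (hm : 2 ≤ m) {t : ℝ} (ht : t < m) :
    ∃ n : ℕ, ∃ z : ℂ, (ab m n).2.eval z = 0 ∧ t < ‖z - 1‖ := by
  have hm0 : (0 : ℝ) < m := by
    have : 0 < m := by omega
    exact_mod_cast this
  have hm2 : (2 : ℝ) ≤ m := by exact_mod_cast hm
  set s : ℝ := max t 1 with hs
  have hs0 : 0 < s := lt_of_lt_of_le one_pos (le_max_right _ _)
  have hsm : s < m := max_lt ht (by linarith)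
  have hρ : 1 / (m : ℝ) < 1 / s := one_div_lt_one_div_of_lt hs0 hsm
  obtain ⟨n, hn⟩ := exists_zero hm hρ
  classical
  have hex : ∃ n : ℕ, ∃ u : ℂ, ‖u‖ < 1 / s ∧ h m n u = 0 := ⟨n, hn⟩
  obtain ⟨N, hN⟩ : ∃ N, N = Nat.find hex := ⟨_, rfl⟩
  obtain ⟨u, hu, hu0⟩ := Nat.find_spec hex
  rw [← hN] at hu0
  have hne : u ≠ 0 := by
    rintro rfl
    rw [h_zero_right] at hu0
    exact one_ne_zero hu0
  have hlt : ∀ k < N, h m k u ≠ 0 := by
    intro k hk h0
    exact Nat.find_min hex (by rw [← hN]; exact hk) ⟨u, hu, h0⟩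
  obtain ⟨-, h2⟩ := ab_h hne N hlt
  refine ⟨N, 1 + u⁻¹, by rw [h2, hu0, zero_mul], ?_⟩
  have e : (1 + u⁻¹) - 1 = u⁻¹ := by ring
  rw [e, norm_inv]
  have hun : 0 < ‖u‖ := norm_pos_iff.2 hne
  have h3 : s < ‖u‖⁻¹ := by
    rw [lt_inv_comm₀ hs0 hun, ← one_div]
    exact hu
  exact (le_max_left _ _).trans_lt h3

end Pool.Agent.Q127.CR
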