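import Mathlib
import Pool.Agent.Q127.CR.Poly
import Pool.Agent.Q127.CR.Minor

set_option autoImplicit false

open SimpleGraph Polynomial

namespace Pool.Agent.Q127.CR

/-- vertices of the complete `m`-ary tree of depth `n` -/
inductive T (m : ℕ) : ℕ → Type
  | leaf : T m 0
  | root {n : ℕ} : T m (n + 1)
  | sub {n : ℕ} (i : Fin m) (v : T m n) : T m (n + 1)

/-- the tree of depth `0` is a point -/
def T.equivZero (m : ℕ) : T m 0 ≃ Unit where
  toFun _ := ()
  invFun _ := .leaf
  left_inv := by rintro ⟨⟩; rfl
  right_inv _ := rfl

/-- the tree of depth `n + 1` is a root with `m` trees of depth `n` -/
def T.equivSucc (m n : ℕ) : T m (n + 1) ≃ Option (Fin m × T m n) where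
  toFun
    | .root => none
    | .sub i v => some (i, v)
  invFun
    | none => .root
    | some (i, v) => .sub i v
  left_inv := by rintro (_ | _) <;> rfl
  right_inv := by rintro (_ | _) <;> rfl

instance instFinT (m : ℕ) : ∀ n, Finite (T m n)
  | 0 => Finite.of_equiv _ (T.equivZero m).symm
  | n + 1 => by
    have := instFinT m n
    exact Finite.of_equiv _ (T.equivSucc m n).symm

/-- parent inside the tree; `none` for the root -/
def par (m : ℕ) : ∀ n, T m n → Option (T m n)
  | 0, _ => none
  | _ + 1, .root => none
  | n + 1, .sub i v => some ((par m n v).elim .root (.sub i))

/-- the leaves -/
def mark (m : ℕ) : ∀ n, T m n → Prop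
  | 0, _ => True
  | _ + 1, .root => False
  | n + 1, .sub _ v => mark m n v

/-- the depth -/
def dep (m : ℕ) : ∀ n, T m n → ℕ
  | 0, _ => 0
  | _ + 1, .root => 0
  | n + 1, .sub _ v => dep m n v + 1

theorem dep_lt (m : ℕ) : ∀ n (v w : T m n), par m n v = some w → dep m n w < dep m n v
  | 0, _, _, h => by simp [par] at h
  | n + 1, .root, _, h => by simp [par] at h
  | n + 1, .sub i v, w, h => by
    simp only [par, Option.some.injEq] at h
    subst h
    cases hv : par m n v with
    | none => simp [dep]
    | some w' =>
      have := dep_lt m n v w' hv
      simp only [dep, Option.elim_some]
      omega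

theorem mark_par (m : ℕ) : ∀ n (v w : T m n), par m n v = some w → ¬ mark m n w
  | 0, _, _, h => by simp [par] at h
  | n + 1, .root, _, h => by simp [par] at h
  | n + 1, .sub i v, w, h => by
    simp only [par, Option.some.injEq] at h
    subst h
    cases hv : par m n v with
    | none => simp [mark]
    | some w' =>
      have := mark_par m n v w' hv
      simpa only [mark, Option.elim_some] using this

theorem par_none (m n : ℕ) : ∃ r : T m n, {w | par m n w = none} ⊆ {r} := by
  cases n with
  | zero => exact ⟨.leaf, by rintro ⟨⟩ _; rfl⟩
  | succ n =>
    refine ⟨.root, ?_⟩
    intro w hw
    cases w with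
    | root => rfl
    | sub i v => simp [par] at hw

/-- every vertex has at most `m` children -/
theorem children (m : ℕ) (hm : 1 ≤ m) (n : ℕ) (a : Option (T m n)) :
    {w | par m n w = a}.ncard ≤ m := by
  cases a with
  | none =>
    obtain ⟨r, hr⟩ := par_none m n
    refine (Set.ncard_le_ncard hr (Set.finite_singleton _)).trans ?_
    rw [Set.ncard_singleton]; exact hm
  | some a =>
    induction n with
    | zero =>
      have : {w : T m 0 | par m 0 w = some a} = ∅ := by
        ext w; simp [par]
      rw [this, Set.ncard_empty]; omega
    | succ n ih =>
      cases a with
      | root =>
        obtain ⟨r, hr⟩ := par_none m n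
        have : {w : T m (n + 1) | par m (n + 1) w = some .root} ⊆
            (fun i : Fin m => (T.sub i r : T m (n + 1))) '' Set.univ := by
          intro w hw
          cases w with
          | root => simp [par] at hw
          | sub i v =>
            have hw' : (par m n v).elim .root (.sub i) = (T.root : T m (n + 1)) := by
              have : par m (n + 1) (.sub i v) = some .root := hw
              simpa [par] using this
            cases hv : par m n v with
            | none =>
              have hvr : v = r := hr hv
              exact ⟨i, trivial, by rw [hvr]⟩
            | some w' => rw [hv] at hw'; simp at hw'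
        refine (Set.ncard_le_ncard this (Set.toFinite _)).trans ?_
        refine (Set.ncard_image_le Set.finite_univ).trans ?_
        simp [Set.ncard_univ]
      | sub i a =>
        have : {w : T m (n + 1) | par m (n + 1) w = some (.sub i a)} ⊆
            (fun w => (T.sub i w : T m (n + 1))) '' {w | par m n w = some a} := by
          intro w hw
          cases w with
          | root => simp [par] at hw
          | sub j w =>
            have hw' : (par m n w).elim .root (.sub j) = (T.sub i a : T m (n + 1)) := by
              have : par m (n + 1) (.sub j w) = some (.sub i a) := hw
              simpa [par] using this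
            cases hv : par m n w with
            | none => rw [hv] at hw'; simp at hw'
            | some w' =>
              rw [hv] at hw'
              simp only [Option.elim_some, T.sub.injEq] at hw'
              obtain ⟨rfl, rfl⟩ := hw'
              exact ⟨w, hv, rfl⟩
        exact ((Set.ncard_le_ncard this (Set.toFinite _)).trans
          (Set.ncard_image_le (Set.toFinite _))).trans (ih a)

/-- the (oriented) edges of the graph: `none` is the apex, `some none` the vertex above the root -/
def E (m n : ℕ) : Option (Option (T m n)) → Option (Option (T m n)) → Prop
  | none, some none => True
  | none, some (some v) => mark m n v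
  | some (some v), some b => par m n v = b
  | _, _ => False

theorem E_ne {m n : ℕ} {a b : Option (Option (T m n))} (h : E m n a b) : a ≠ b := by
  rintro rfl
  rcases a with _ | _ | v
  · exact h
  · exact h
  · have h' : par m n v = some v := h
    exact lt_irrefl _ (dep_lt m n v v h')

/-- the graph: a complete `m`-ary tree with one more vertex above the root and an apex joined to
that vertex and to all leaves -/
def F (m n : ℕ) : SimpleGraph (Option (Option (T m n))) where
  Adj a b := E m n a b ∨ E m n b a
  symm := ⟨fun _ _ h => h.symm⟩
  loopless := ⟨fun _ h => h.elim (fun h => E_ne h rfl) (fun h => E_ne h rfl)⟩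

theorem F_rooted (m n : ℕ) : Rooted (F m n) none
    (fun a => match a with | some (some v) => some (some (par m n v)) | _ => none)
    (fun a => match a with | some (some v) => dep m n v + 1 | _ => 0) where
  adj := by
    intro a b ha hb hab
    rcases a with _ | _ | v
    · exact absurd rfl ha
    · rcases b with _ | _ | w
      · exact absurd rfl hb
      · rcases hab with h | h <;> exact absurd h (by simp [E])
      · rcases hab with h | h
        · exact absurd h (by simp [E])
        · right
          have h' : par m n w = none := h
          simp [h']
    · rcases b with _ | _ | w
      · exact absurd rfl hb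
      · rcases hab with h | h
        · left
          have h' : par m n v = none := h
          simp [h']
        · exact absurd h (by simp [E])
      · rcases hab with h | h
        · left
          have h' : par m n v = some w := h
          simp [h']
        · right
          have h' : par m n w = some v := h
          simp [h']
  lt := by
    intro a b hab
    rcases a with _ | _ | v
    · simp at hab
    · simp at hab
    · simp only [Option.some.injEq] at hab
      subst hab
      cases hv : par m n v with
      | none => simp
      | some w =>
        have := dep_lt m n v w hv
        simpa using this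

theorem F_no_K4 (m n : ℕ) : ¬ HasK4Minor (F m n) := (F_rooted m n).no_K4

theorem F_degree (m : ℕ) (hm : 1 ≤ m) (n : ℕ) (a : Option (Option (T m n))) (ha : a ≠ none) :
    ((F m n).neighborSet a).ncard ≤ m + 1 := by
  rcases a with _ | _ | v
  · exact absurd rfl ha
  · have hsub : (F m n).neighborSet (some none) ⊆
        insert none ((fun w => some (some w)) '' {w | par m n w = none}) := by
      rintro (_ | _ | w) hw
      · exact Set.mem_insert _ _
      · exact absurd rfl ((F m n).ne_of_adj hw)
      · refine Set.mem_insert_of_mem _ ⟨w, ?_, rfl⟩
        rcases hw with h | h
        · exact absurd h (by simp [E])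
        · exact h
    refine (Set.ncard_le_ncard hsub (Set.toFinite _)).trans ?_
    refine (Set.ncard_insert_le _ _).trans ?_
    have := (Set.ncard_image_le (f := fun w => (some (some w) : Option (Option (T m n))))
      (Set.toFinite {w | par m n w = none})).trans (children m hm n none)
    omega
  · by_cases hmk : mark m n v
    · have hsub : (F m n).neighborSet (some (some v)) ⊆ {none, some (par m n v)} := by
        rintro (_ | w) hw
        · exact Set.mem_insert _ _
        · refine Set.mem_insert_of_mem _ ?_
          rcases hw with h | h
          · have h' : par m n v = w := h
            rw [h']; rfl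
          · rcases w with _ | w
            · exact absurd h (by simp [E])
            · exact absurd hmk (mark_par m n w v h)
      refine (Set.ncard_le_ncard hsub (Set.toFinite _)).trans ?_
      refine (Set.ncard_insert_le _ _).trans ?_
      rw [Set.ncard_singleton]
      omega
    · have hsub : (F m n).neighborSet (some (some v)) ⊆
          insert (some (par m n v)) ((fun w => some (some w)) '' {w | par m n w = some v}) := by
        rintro (_ | w) hw
        · rcases hw with h | h
          · exact absurd h (by simp [E])
          · exact absurd h hmk
        · rcases hw with h | h
          · have h' : par m n v = w := h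
            rw [h']; exact Set.mem_insert _ _
          · rcases w with _ | w
            · exact absurd h (by simp [E])
            · exact Set.mem_insert_of_mem _ ⟨w, h, rfl⟩
      refine (Set.ncard_le_ncard hsub (Set.toFinite _)).trans ?_
      refine (Set.ncard_insert_le _ _).trans ?_
      have := (Set.ncard_image_le (f := fun w => (some (some w) : Option (Option (T m n))))
        (Set.toFinite {w | par m n w = some v})).trans (children m hm n (some v))
      omega

end Pool.Agent.Q127.CR
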