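import Mathlib
import Pool.Agent.Q127.CR.Tree

set_option autoImplicit false

open SimpleGraph Polynomial

namespace Pool.Agent.Q127.CR

/-- colourings of the tree, when the apex has colour `c0` and the vertex above the root `c1` -/
def D (m n : ℕ) {q : ℕ} (c0 c1 : Fin q) : Type :=
  {f : T m n → Fin q // (∀ v, f v ≠ (par m n v).elim c1 f) ∧ ∀ v, mark m n v → f v ≠ c0}

instance (m n : ℕ) {q : ℕ} (c0 c1 : Fin q) : Finite (D m n c0 c1) := by
  unfold D; infer_instance

/-- trees of depth `0` -/
def D.equivZero (m : ℕ) {q : ℕ} (c0 c1 : Fin q) :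
    D m 0 c0 c1 ≃ {c : {c : Fin q // c ≠ c1} // c.1 ≠ c0} where
  toFun f := ⟨⟨f.1 .leaf, f.2.1 .leaf⟩, f.2.2 .leaf trivial⟩
  invFun c := ⟨fun _ => c.1.1, fun v => by simpa [par] using c.1.2, fun _ _ => c.2⟩
  left_inv f := by
    apply Subtype.ext
    funext v
    cases v
    rfl
  right_inv c := rfl

/-- trees of depth `n + 1` -/
def D.equivSucc (m n : ℕ) {q : ℕ} (c0 c1 : Fin q) :
    D m (n + 1) c0 c1 ≃ Σ c : {c : Fin q // c ≠ c1}, (Fin m → D m n c0 c.1) where
  toFun f := ⟨⟨f.1 .root, f.2.1 .root⟩, fun i => ⟨fun v => f.1 (.sub i v), fun v => by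
    have h := f.2.1 (.sub i v)
    cases hv : par m n v with
    | none => simpa [par, hv] using h
    | some w => simpa [par, hv] using h, fun v hv => f.2.2 (.sub i v) hv⟩⟩
  invFun p := ⟨fun v => match v with
      | .root => p.1.1
      | .sub i v => (p.2 i).1 v, by
    constructor
    · intro v
      cases v with
      | root => exact p.1.2
      | sub i v =>
        have h := (p.2 i).2.1 v
        cases hv : par m n v with
        | none => simpa [par, hv] using h
        | some w => simpa [par, hv] using h
    · intro v hv
      cases v with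
      | root => exact absurd hv (by simp [mark])
      | sub i v => exact (p.2 i).2.2 v hv⟩
  left_inv f := by
    apply Subtype.ext
    funext v
    cases v <;> rfl
  right_inv p := rfl

/-- colourings of the whole graph -/
def colEquiv (m n q : ℕ) :
    (F m n).Coloring (Fin q) ≃ Σ c0 : Fin q, Σ c1 : {c : Fin q // c ≠ c0}, D m n c0 c1.1 where
  toFun f := ⟨f none, ⟨f (some none), (f.valid (v := none) (w := some none)
      (Or.inl trivial)).symm⟩, ⟨fun v => f (some (some v)), fun v => by
    have h := f.valid (v := some (some v)) (w := some (par m n v)) (Or.inl rfl)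
    cases hv : par m n v with
    | none => simpa [hv] using h
    | some w => simpa [hv] using h, fun v hv =>
    (f.valid (v := none) (w := some (some v)) (Or.inl hv)).symm⟩⟩
  invFun p := Coloring.mk (fun a => match a with
      | none => p.1
      | some none => p.2.1.1
      | some (some v) => p.2.2.1 v) (by
    have key : ∀ a b, E m n a b → (match a with
      | none => p.1
      | some none => p.2.1.1
      | some (some v) => p.2.2.1 v) ≠ (match b with
      | none => p.1
      | some none => p.2.1.1
      | some (some v) => p.2.2.1 v) := by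
      intro a b hab
      rcases a with _ | _ | v
      · rcases b with _ | _ | w
        · exact absurd hab (by simp [E])
        · exact p.2.1.2.symm
        · exact (p.2.2.2.2 w hab).symm
      · rcases b with _ | _ | w <;> exact absurd hab (by simp [E])
      · rcases b with _ | b
        · exact absurd hab (by simp [E])
        · have hb : par m n v = b := hab
          have h := p.2.2.2.1 v
          subst hb
          cases hv : par m n v with
          | none => simpa [hv] using h
          | some w => simpa [hv] using h
    intro a b hab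
    rcases hab with h | h
    · exact key a b h
    · exact (key b a h).symm)
  left_inv f := by
    apply RelHom.ext
    intro a
    rcases a with _ | _ | v <;> rfl
  right_inv p := rfl

theorem sum_ne {q : ℕ} (c0 c1 : Fin q) (a b : ℂ) :
    ∑ c : {c : Fin q // c ≠ c1}, (if c.1 = c0 then a else b) =
      if c1 = c0 then (q - 1) * b else a + (q - 2) * b := by
  have h1 : ∑ c : {c : Fin q // c ≠ c1}, (if c.1 = c0 then a else b) =
      ∑ c ∈ Finset.univ.erase c1, (if c = c0 then a else b) :=
    (Finset.sum_subtype _ (fun x => by simp) (fun c => if c = c0 then a else b)).symm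
  have h2 := Finset.add_sum_erase Finset.univ (fun c => if c = c0 then a else b)
    (Finset.mem_univ c1)
  have h3 : ∑ c : Fin q, (if c = c0 then a else b) = a + (q - 1) * b := by
    have h4 := Finset.add_sum_erase Finset.univ (fun c => if c = c0 then a else b)
      (Finset.mem_univ c0)
    have h5 : ∑ c ∈ Finset.univ.erase c0, (if c = c0 then a else b) = (q - 1) * b := by
      rw [Finset.sum_congr rfl (g := fun _ => b) fun c hc => by
        rw [if_neg (Finset.ne_of_mem_erase hc)]]
      rw [Finset.sum_const, Finset.card_erase_of_mem (Finset.mem_univ _), Finset.card_univ,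
        Fintype.card_fin, nsmul_eq_mul, Nat.cast_sub (by have := c0.2; omega)]
      simp
    rw [← h4, h5, if_pos rfl]
  rw [h3] at h2
  rw [h1]
  split_ifs with hc
  · rw [if_pos hc] at h2
    linear_combination h2
  · rw [if_neg hc] at h2
    linear_combination h2

theorem card_D (m : ℕ) {q : ℕ} (n : ℕ) : ∀ c0 c1 : Fin q,
    (Nat.card (D m n c0 c1) : ℂ) =
      if c1 = c0 then (ab m n).1.eval (q : ℂ) else (ab m n).2.eval (q : ℂ) := by
  induction n with
  | zero =>
    intro c0 c1
    rw [Nat.card_congr (D.equivZero m c0 c1), Nat.card_eq_fintype_card, Fintype.card_subtype,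
      Finset.card_filter]
    push_cast
    have h := sum_ne c0 c1 0 1
    have h2 : ∀ c : {c : Fin q // c ≠ c1}, (if ¬ c.1 = c0 then (1 : ℂ) else 0) =
        if c.1 = c0 then 0 else 1 := by
      intro c; by_cases h : c.1 = c0 <;> simp [h]
    simp only [ne_eq, h2]
    rw [h]
    simp [ab]
  | succ n ih =>
    intro c0 c1
    rw [Nat.card_congr (D.equivSucc m n c0 c1), Nat.card_sigma]
    push_cast
    have h2 : ∀ c : {c : Fin q // c ≠ c1}, (Nat.card (Fin m → D m n c0 c.1) : ℂ) =
        if c.1 = c0 then (ab m n).1.eval (q : ℂ) ^ m else (ab m n).2.eval (q : ℂ) ^ m := by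
      intro c
      rw [Nat.card_fun, Nat.card_eq_fintype_card (α := Fin m), Fintype.card_fin, Nat.cast_pow, ih]
      split_ifs <;> rfl
    simp only [h2]
    rw [sum_ne]
    simp [ab]

/-- the chromatic polynomial of `F m n` -/
noncomputable def P (m n : ℕ) : ℂ[X] := X * ((X - 1) * (ab m n).2)

theorem card_col (m n q : ℕ) :
    (P m n).eval (q : ℂ) = (Nat.card ((F m n).Coloring (Fin q)) : ℂ) := by
  rw [Nat.card_congr (colEquiv m n q), Nat.card_sigma]
  push_cast
  have h1 : ∀ c0 : Fin q, (Nat.card (Σ c1 : {c : Fin q // c ≠ c0}, D m n c0 c1.1) : ℂ) =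
      (q - 1) * (ab m n).2.eval (q : ℂ) := by
    intro c0
    rw [Nat.card_sigma]
    push_cast
    have h2 : ∀ c1 : {c : Fin q // c ≠ c0}, (Nat.card (D m n c0 c1.1) : ℂ) =
        (if c1.1 = c0 then 0 else (ab m n).2.eval (q : ℂ)) := by
      intro c1
      rw [card_D, if_neg c1.2, if_neg c1.2]
    simp only [h2]
    rw [sum_ne, if_pos rfl]
  simp only [h1]
  simp [P]

end Pool.Agent.Q127.CR
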